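import Pool.Agent.H752.KM.Main

/-!
# How many oracles make `NP` a class of p-measure zero?

The set of the oracles `A` relative to which `NP` has p-measure zero (or `PSPACE` has p-measure
zero, and every set of oracles in between) is a null set for every gauge `f` which is bounded on an
infinite set of numbers, and it is not a null set for `f` if `f N` is, up to a constant, at least
the number of the elements `n` with `2 ^ 2 ^ n ≤ N` of an infinite tally set in `P`; these functions
tend to infinity as slowly as one likes.
-/

namespace Pool.Agent.Results.MP_158ebf_lc.GaugeSize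

open Pool.Agent.NPC Pool.Agent.H620R2.Gauge Pool.Agent.H752.KM Filter

theorem result :
    {A | MNull polyT A {L | IsPSPACE A L}} ⊆ {A | MNull polyT A {L | IsNP A L}} ∧
    ∀ (f : ℕ → ℝ) (O : Set Oracle), {A | MNull polyT A {L | IsPSPACE A L}} ⊆ O →
      O ⊆ {A | MNull polyT A {L | IsNP A L}} →
      ((∃ C : ℝ, ∃ᶠ N in atTop, f N ≤ C) → Null f O) ∧
      ((∃ T, Tally T ∧ ∃ C : ℝ, ∀ᶠ N in atTop, (cnt T N : ℝ) ≤ f N + C) → ¬ Null f O) :=
  ⟨pspace_sub_np mono_holds, fun f O h1 h2 => gauge_np f O h1 h2⟩

end Pool.Agent.Results.MP_158ebf_lc.GaugeSize
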